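import Pool.Agent.Y838.GP.Bridge

set_option autoImplicit false

/-!
# Every finite set of points extends to a Gorenstein set of points with known h-vector
(MP_845d9e_ag)

Let `K` be an infinite field and let `S` be a nonempty finite set of points of affine space over `K`,
with Hilbert function `H_S`, and `q ≥ 2 t + 3`.  For all large `n` there is a reduced arithmetically
Gorenstein set `Z ⊂ P^n` of `(t + 1) q |S|` points, with socle degree `m = t + 2` and
`h_i = q |S| + H_S(i) + H_S(m - i)` for `2 ≤ i ≤ m - 2`.

So `h_i - h_{i-1} = ΔH_S(i) - ΔH_S(m + 1 - i)` for `3 ≤ i ≤ m - 2`, and each finite set `S` with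
`ΔH_S(3) < ΔH_S(m - 2)`, `m ≥ 6`, gives an h-vector which is not unimodal.  This is the analogue, for
reduced sets of points, of the trivial extensions by which Stanley found his non-unimodal Gorenstein
algebras.
-/

open Pool.Agent.Y838.GP.Pub

namespace Pool.Agent.Results.MP_845d9e_ag.ExtensionFormula

/-- **Main result.** -/
theorem result :
    ∀ (K : Type) [Field K] [Infinite K] (p : ℕ) (S : Finset (Fin p → K)), S.Nonempty →
      ∀ t q : ℕ, 2 * t + 3 ≤ q →
      ∃ n₀ : ℕ, ∀ n, n₀ ≤ n → ∃ Z : Finset (Fin (n + 1) → K),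
        IsPointSet Z ∧ IsAG Z ∧ SocleDegree Z (t + 2) ∧ Z.card = (t + 1) * (q * S.card) ∧
        ∀ i, 2 ≤ i → i ≤ t →
          hvec Z i = (q * S.card : ℕ) + affHilb S i + affHilb S (t + 2 - i) :=
  fun K _ _ p S hS t q hq => Pool.Agent.Y838.GP.extend K p S hS t q hq

end Pool.Agent.Results.MP_845d9e_ag.ExtensionFormula
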