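import Pool.Agent.Y838.GP.Bridge

set_option autoImplicit false

/-!
# The h-vectors of Gorenstein sets of points have arbitrary differences (MP_845d9e_ag)

The starting frozen result S00286 gives one reduced arithmetically Gorenstein set of points, over the
complex numbers, whose h-vector is not unimodal.  Here `K` is an arbitrary infinite field and the
points are `K`-rational: for all integers `d_3, …, d_k`, for all large `m` and all large `n` there is
a reduced arithmetically Gorenstein set `Z ⊂ P^n` with socle degree `m` and
`h_j - h_{j-1} = d_j` for `3 ≤ j ≤ k`.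

So nothing can be said about the signs, or the sizes, of the differences of the h-vector in a given
range of degrees `≥ 3`: the h-vector can have any number of valleys of any depth.

The proof uses the extension theorem (see `ExtensionFormula`) for sets `S` given by the exponents of
order ideals of monomials.
-/

open Pool.Agent.Y838.GP.Pub

namespace Pool.Agent.Results.MP_845d9e_ag.PrescribedDifferences

/-- **Main result.** -/
theorem result :
    ∀ (K : Type) [Field K] [Infinite K] (k : ℕ) (d : ℕ → ℤ),
      ∃ m₀ : ℕ, ∀ m, m₀ ≤ m → ∃ n₀ : ℕ, ∀ n, n₀ ≤ n → ∃ Z : Finset (Fin (n + 1) → K),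
        IsPointSet Z ∧ IsAG Z ∧ SocleDegree Z m ∧
        ∀ j, 3 ≤ j → j ≤ k → hvec Z j - hvec Z (j - 1) = d j := by
  intro K _ _ k d
  obtain ⟨m₀, h⟩ := Pool.Agent.Y838.GP.windows K k d
  refine ⟨m₀, fun m hm => ?_⟩
  obtain ⟨n₀, h'⟩ := h m hm
  refine ⟨n₀, fun n hn => ?_⟩
  obtain ⟨Z, h1, h2, h3, h4, -⟩ := h' n hn
  exact ⟨Z, h1, h2, h3, h4⟩

end Pool.Agent.Results.MP_845d9e_ag.PrescribedDifferences
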